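import Pool.Agent.H97.HV.Targets

/-!
# Board hov_modules (MP_e37c09_lc), row CNT
-/

open Ordinal Cardinal Order Set
open scoped ZFSet

universe u

namespace Pool.Agent.H67.HV

open _root_.HD HD.PRK HD.HV

/-- the part of `T` in `V_ l × Wz γ m` -/
noncomputable def cA (γ l : Ordinal.{u}) (T : ZFSet.{u}) (m : Ordinal.{u}) : ZFSet.{u} :=
  ZFSet.sep (fun z => z ∈ ZFSet.prod (V_ l) (Wz γ m)) T

theorem mem_cA {γ l : Ordinal.{u}} {T : ZFSet.{u}} {m : Ordinal.{u}} {z : ZFSet.{u}} :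
    z ∈ cA γ l T m ↔ z ∈ T ∧ ∃ x ∈ V_ l, ∃ y ∈ Wz γ m, z = ZFSet.pair x y := by
  unfold cA
  rw [ZFSet.mem_sep, ZFSet.mem_prod]

theorem od_cA (h : T_WZF.{u}) (γ l : Ordinal.{u}) {T : ZFSet.{u}} (hT : OD T)
    (m : Ordinal.{u}) : OD (cA γ l T m) := by
  refine OD.of_mem (P := fun v => v 0 ∈ T ∧ ∃ x ∈ V_ l, ∃ y ∈ Wz γ m, v 0 = ZFSet.pair x y)
    (DZ.and ?_ ?_) fun v => mem_cA.symm
  · exact DZ.od (R := fun b v => v 0 ∈ b) hT (DZ.mem 1 0)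
  · refine DZ.od (R := fun b v => ∃ x ∈ b, ∃ y ∈ Wz γ m, v 0 = ZFSet.pair x y) (NF.od_V l) ?_
    refine DZ.od (R := fun b v => ∃ x ∈ v 0, ∃ y ∈ b, v 1 = ZFSet.pair x y) (h.2.1 γ m) ?_
    exact DZ.exMem 1 (DZ.exMem 1 (loc_pair _ _ _).dz)

theorem dr_cA (h : T_WZF.{u}) (γ l : Ordinal.{u})
    {J : Ordinal.{u} → Ordinal.{u} → ZFSet.{u} → Prop}
    (hJ : DZ fun v => (v 0).IsOrdinal ∧ (v 1).IsOrdinal ∧ J (v 0).rank (v 1).rank (v 2))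
    {T : ZFSet.{u}} (hT : OD T) : DR fun m i => J m i (cA γ l T m) := by
  refine ⟨fun v => ∃ W, ((v 0).IsOrdinal ∧ W = Wz γ (v 0).rank) ∧
    ∃ Y, ((v 0).IsOrdinal ∧ (v 1).IsOrdinal ∧ J (v 0).rank (v 1).rank Y) ∧
      ∀ z, z ∈ Y ↔ z ∈ T ∧ ∃ x ∈ V_ l, ∃ y ∈ W, z = ZFSet.pair x y, ?_, fun w => ?_⟩
  · refine DZ.od (R := fun b v => ∃ W, ((v 0).IsOrdinal ∧ W = Wz γ (v 0).rank) ∧
      ∃ Y, ((v 0).IsOrdinal ∧ (v 1).IsOrdinal ∧ J (v 0).rank (v 1).rank Y) ∧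
        ∀ z, z ∈ Y ↔ z ∈ b ∧ ∃ x ∈ V_ l, ∃ y ∈ W, z = ZFSet.pair x y) hT ?_
    refine DZ.od (R := fun b v => ∃ W, ((v 1).IsOrdinal ∧ W = Wz γ (v 1).rank) ∧
      ∃ Y, ((v 1).IsOrdinal ∧ (v 2).IsOrdinal ∧ J (v 1).rank (v 2).rank Y) ∧
        ∀ z, z ∈ Y ↔ z ∈ v 0 ∧ ∃ x ∈ b, ∃ y ∈ W, z = ZFSet.pair x y) (NF.od_V l) ?_
    refine DZ.ex (DZ.and ((h.1 γ).ren fun n => if n = 0 then 3 else 0) (DZ.ex (DZ.and
      (hJ.ren fun n => if n = 0 then 4 else if n = 1 then 5 else 0) (DZ.all ?_))))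
    exact (DZ.mem 0 1).iff ((DZ.mem 0 4).and (DZ.exMem 3 (DZ.exMem 3 (loc_pair _ _ _).dz)))
  · have e0 : (ov w 0).rank = w 0 := rank_toZFSet _
    have e1 : (ov w 1).rank = w 1 := rank_toZFSet _
    have o0 : (ov w 0).IsOrdinal := ZFSet.isOrdinal_toZFSet _
    have o1 : (ov w 1).IsOrdinal := ZFSet.isOrdinal_toZFSet _
    beta_reduce
    rw [e0, e1]
    constructor
    · intro hj
      exact ⟨_, ⟨o0, rfl⟩, _, ⟨o0, o1, hj⟩, fun z => mem_cA⟩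
    · rintro ⟨W, ⟨-, rfl⟩, Y, ⟨-, -, hj⟩, hz⟩
      have : Y = cA γ l T (w 0) := by
        ext z
        rw [hz z, mem_cA]
      rwa [this] at hj

/-- the code of `T` -/
def cY (γ l κ : Ordinal.{u}) (t : Ordinal.{u} → Ordinal.{u} → Ordinal.{u})
    (J : Ordinal.{u} → Ordinal.{u} → ZFSet.{u} → Prop) (T : ZFSet.{u}) : Set Ordinal.{u} :=
  {c | ∃ m < κ, ∃ i, J m i (cA γ l T m) ∧ c = t m i}

theorem sub_of_code (h : T_WZF.{u}) {K : Cardinal.{u}} (hK0 : ℵ₀ < K) {γ l : Ordinal.{u}}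
    {J : Ordinal.{u} → Ordinal.{u} → ZFSet.{u} → Prop} (hJ : Cdg γ l K J)
    {t : Ordinal.{u} → Ordinal.{u} → Ordinal.{u}}
    (htinj : ∀ a b a' b', t a b = t a' b' → a = a' ∧ b = b')
    (htlt : ∀ a < K.ord, ∀ b < K.ord, t a b < K.ord) {T T' : ZFSet.{u}} (hT : OD T)
    (hTs : T ⊆ ZFSet.prod (V_ l) (Wz γ K.ord))
    (hc : os K.ord (cY γ l K.ord t J T) = os K.ord (cY γ l K.ord t J T')) : T ⊆ T' := by
  intro z hz
  obtain ⟨x, hx, y, hy, rfl⟩ := ZFSet.mem_prod.1 (hTs hz)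
  have hy' : y ∈ ZFSet.sep (NV γ) (V_ K.ord) := hy
  rw [ZFSet.mem_sep] at hy'
  have hr : y.rank < K.ord := ZFSet.mem_vonNeumann.1 hy'.1
  have hm : succ y.rank < K.ord := (isSuccLimit_ord hK0.le).succ_lt hr
  have hyW : y ∈ Wz γ (succ y.rank) := by
    unfold Wz
    rw [ZFSet.mem_sep]
    exact ⟨ZFSet.mem_vonNeumann.2 (lt_succ _), hy'.2⟩
  have hzA : ZFSet.pair x y ∈ cA γ l T (succ y.rank) :=
    mem_cA.2 ⟨hz, x, hx, y, hyW, rfl⟩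
  have hsub : cA γ l T (succ y.rank) ⊆ ZFSet.prod (V_ l) (Wz γ (succ y.rank)) := by
    intro w hw
    exact ZFSet.mem_prod.2 (mem_cA.1 hw).2
  obtain ⟨i, hi⟩ := hJ.ex _ hm _ (od_cA h γ l hT _) hsub
  obtain ⟨b, hb, hb'⟩ := hJ.bd _ hm
  have h1 : (t (succ y.rank) i).toZFSet ∈ os K.ord (cY γ l K.ord t J T) :=
    ord_mem_os.2 ⟨htlt _ hm _ ((hb' _ _ hi).trans hb), _, hm, _, hi, rfl⟩
  rw [hc] at h1
  obtain ⟨-, m', -, i', hi', he⟩ := ord_mem_os.1 h1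
  obtain ⟨rfl, rfl⟩ := htinj _ _ _ _ he
  have h2 := hJ.un _ _ _ _ hi hi'
  rw [h2] at hzA
  exact (mem_cA.1 hzA).1

theorem pf_CNT (h : T_WZF.{u}) : T_CNT.{u} := by
  classical
  intro K hK hK0 hVE γ l J hJ
  obtain ⟨t, htd, htinj, htlt⟩ := All.pr.{u}
  obtain ⟨C, e, -, -, hon, -⟩ := hVE
  have hlt : ∀ a < K.ord, ∀ b < K.ord, t a b < K.ord := htlt K hK0.le
  have hY : ∀ T, OD T → ∃ ζ < K.ord, os K.ord (cY γ l K.ord t J T) = e ζ := by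
    intro T hT
    have hR := dr_cA h γ l hJ.dz hT
    have hDS : DS (cY γ l K.ord t J T) := by
      refine DO.exLtc K.ord (R := fun m w => ∃ i, J m i (cA γ l T m) ∧ w 0 = t m i)
        (DO.ex (R := fun i w => J (w 0) i (cA γ l T (w 0)) ∧ w 1 = t (w 0) i) (DO.and ?_ ?_))
      · exact DO.s2 (X := fun m i => J m i (cA γ l T m)) hR 1 0
      · exact htd.ren fun n => if n = 0 then 1 else if n = 1 then 0 else 2
    exact hon _ (hod_os hDS K.ord) fun z hz => by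
      obtain ⟨a, ha, -, rfl⟩ := mem_os.1 hz
      exact toZFSet_mem_toZFSet_iff.2 ha
  let P : Ordinal.{u} → ZFSet.{u} → Prop := fun ζ T =>
    (OD T ∧ T ⊆ ZFSet.prod (V_ l) (Wz γ K.ord)) ∧ os K.ord (cY γ l K.ord t J T) = e ζ
  refine ⟨fun ζ => if hex : ∃ T, P ζ T then Classical.choose hex else ∅, fun T hT hTs => ?_⟩
  obtain ⟨ζ, hζ, hζe⟩ := hY T hT
  have hex : ∃ T, P ζ T := ⟨T, ⟨hT, hTs⟩, hζe⟩
  refine ⟨ζ, hζ, ?_⟩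
  simp only [dif_pos hex]
  obtain ⟨⟨h1, h2⟩, h3⟩ := Classical.choose_spec hex
  have s1 := sub_of_code h hK0 hJ htinj hlt hT hTs (hζe.trans h3.symm)
  have s2 := sub_of_code h hK0 hJ htinj hlt h1 h2 (h3.trans hζe.symm)
  ext z
  exact ⟨fun hz => s1 hz, fun hz => s2 hz⟩

end Pool.Agent.H67.HV
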