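import Pool.Agent.H67.HV.LAV
import Pool.Agent.H45.CF.FO

/-!
# Board hov_modules (MP_e37c09_lc), row L3V
-/

open Ordinal Cardinal Order Set
open scoped ZFSet

universe u

namespace Pool.Agent.H67.HV

open _root_.HD HD.PRK HD.HV

/-! ## Classes -/

theorem agV_symm {F x y : ZFSet.{u}} {n : Ordinal.{u}} (h : AgV F x y n) : AgV F y x n :=
  fun k hk a => (h k hk a).symm

theorem agV_trans {F x y z : ZFSet.{u}} {n : Ordinal.{u}} (h : AgV F x y n)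
    (h' : AgV F y z n) : AgV F x z n :=
  fun k hk a => (h k hk a).trans (h' k hk a)

/-- At a good level almost all classes are positive. -/
theorem l3v_null {δ μ κ n : Ordinal.{u}} {F : ZFSet.{u}} (h : GdV δ μ κ F n) :
    ¬ PosX μ κ fun x => ¬ PcV μ κ F x n := by
  obtain ⟨τ, _, g, h1, h2⟩ := h
  intro hP
  refine h2 fun C hC => ?_
  obtain ⟨x, hx, hx'⟩ := hP C hC
  refine ⟨x, hx, fun i hi hag => hx' fun C' hC' => ?_⟩
  obtain ⟨y, hy, hy'⟩ := h1 i hi C' hC'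
  exact ⟨y, hy, agV_trans hy' (agV_symm hag)⟩

/-! ## Definability -/

/-- the section of `F` at `y` agrees with `R` at the places in `n` -/
def SecR (F n R y : ZFSet.{u}) : Prop := ∀ k ∈ n, ∀ a,
  ZFSet.pair y (ZFSet.pair k a) ∈ F ↔ ZFSet.pair k a ∈ R

theorem l3v_half (f y i r : ℕ) : Loc.{u} fun v => ∀ a,
    ZFSet.pair (v y) (ZFSet.pair (v i) a) ∈ v f → ZFSet.pair (v i) a ∈ v r := by
  refine Loc.congr (P := fun v => ∀ w, ZFSet.pair (v y) w ∈ v f →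
    ((∃ a, w = ZFSet.pair (v i) a) → w ∈ v r)) ?_ fun v => ?_
  · exact Loc.allSnd (R := fun w v => (∃ a, w = ZFSet.pair (v i) a) → w ∈ v r)
      y f ((lav_snd 0 (i + 1)).imp (Loc.mem 0 (r + 1)))
  · constructor
    · rintro h w hw ⟨a, rfl⟩
      exact h a hw
    · intro h a ha
      exact h _ ha ⟨a, rfl⟩

theorem l3v_half' (f y i r : ℕ) : Loc.{u} fun v => ∀ a,
    ZFSet.pair (v i) a ∈ v r → ZFSet.pair (v y) (ZFSet.pair (v i) a) ∈ v f := by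
  refine Loc.congr (P := fun v => ∀ w ∈ v r, ((∃ a, w = ZFSet.pair (v i) a) →
    ZFSet.pair (v y) w ∈ v f)) ?_ fun v => ?_
  · exact Loc.allMem (R := fun w v => (∃ a, w = ZFSet.pair (v i) a) → ZFSet.pair (v y) w ∈ v f)
      r ((lav_snd 0 (i + 1)).imp (loc_pmem (y + 1) 0 (f + 1)))
  · constructor
    · rintro h w hw ⟨a, rfl⟩
      exact h a hw
    · intro h a ha
      exact h _ ha ⟨a, rfl⟩

theorem l3v_eqv (f y i r : ℕ) : Loc.{u} fun v => ∀ a,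
    ZFSet.pair (v y) (ZFSet.pair (v i) a) ∈ v f ↔ ZFSet.pair (v i) a ∈ v r :=
  Loc.congr ((l3v_half f y i r).and (l3v_half' f y i r)) fun _ =>
    ⟨fun h => ⟨fun a => (h a).1, fun a => (h a).2⟩, fun h a => ⟨h.1 a, h.2 a⟩⟩

/-- the predicate in the definition of `Z` -/
def QV (μ ρ : Ordinal.{u}) (F n R : ZFSet.{u}) : Prop :=
  μ.toZFSet.IsOrdinal ∧ ρ.toZFSet.IsOrdinal ∧
    PosX μ.toZFSet.rank ρ.toZFSet.rank fun y => SecR F n R y

theorem l3v_dz (μ ρ : Ordinal.{u}) {F : ZFSet.{u}} (hF : OD F) :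
    DZ.{u} fun v => QV μ ρ F (v 0) (v 1) := by
  have h0 : Loc.{u} fun v => (v 0).IsOrdinal ∧ (v 1).IsOrdinal ∧
      PosX (v 0).rank (v 1).rank (fun y => SecR (v 2) (v 3) (v 4) y) := by
    refine Pool.Agent.H97.PRK.a_LPX (fun y v => SecR (v 2) (v 3) (v 4) y) ?_ 0 1
    exact Loc.allMem (R := fun k v => ∀ a, ZFSet.pair (v 0) (ZFSet.pair k a) ∈ v 3 ↔
      ZFSet.pair k a ∈ v 5) 4 (l3v_eqv 4 1 0 6)
  have a1 : DZ.{u} fun v => μ.toZFSet.IsOrdinal ∧ (v 0).IsOrdinal ∧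
      PosX μ.toZFSet.rank (v 0).rank (fun y => SecR (v 1) (v 2) (v 3) y) :=
    DZ.od (R := fun b v => b.IsOrdinal ∧ (v 0).IsOrdinal ∧
      PosX b.rank (v 0).rank (fun y => SecR (v 1) (v 2) (v 3) y)) (OD.ordinal μ) h0.dz
  have a2 : DZ.{u} fun v => μ.toZFSet.IsOrdinal ∧ ρ.toZFSet.IsOrdinal ∧
      PosX μ.toZFSet.rank ρ.toZFSet.rank (fun y => SecR (v 0) (v 1) (v 2) y) :=
    DZ.od (R := fun b v => μ.toZFSet.IsOrdinal ∧ b.IsOrdinal ∧
      PosX μ.toZFSet.rank b.rank (fun y => SecR (v 0) (v 1) (v 2) y)) (OD.ordinal ρ) a1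
  exact DZ.od (R := fun b v => QV μ ρ b (v 0) (v 1)) hF a2

theorem l3v_prod {x y : ZFSet.{u}} (hx : OD x) (hy : OD y) : OD (ZFSet.prod x y) := by
  refine OD.of_dz ?_
  refine DZ.od (R := fun b v => v 0 = ZFSet.prod b y) hx ?_
  exact DZ.od (R := fun c v => v 1 = ZFSet.prod (v 0) c) hy (loc_prod 2 1 0).dz

/-- L3V. Almost all sections are in small ordinal definable sets. -/
theorem pf_L3V (_h0 : T_LAV.{u}) (h1 : T_TWV.{u}) (h2 : T_GDV.{u}) (h3 : T_BRV.{u}) :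
    T_L3V.{u} := by
  intro δ hδ hA D K hδD hK hδK μ hμ hωμ l hl F hF hReg hVal hFK
  obtain ⟨D', hD', hDr, hDs, hD0⟩ := Pool.Agent.H45.CF.ext_card hδ
  have hDD : D = D' := by
    refine Cardinal.ord_injective ?_
    rw [← hδD, hD']
  subst hDD
  have hDK : D < K := by
    rw [hδD] at hδK
    exact ord_lt_ord.1 hδK
  have hK0 : ℵ₀ < K := hD0.trans hDK
  have hFew : Few D.ord (SpV μ K.ord F) := by
    rw [← hδD]
    exact h1 δ hδ hA K hK hδK μ hμ hωμ F hF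
  have hGd : ∀ n < K.ord, GdV D.ord μ K.ord F n := by
    intro n hn
    rw [← hδD]
    exact h2 δ hδ hA K hK hδK μ hμ hωμ l hl F hF hVal n hn
  obtain ⟨C, hC, hCP⟩ := Pool.Agent.H97.PRK.a_NU2 μ K hK hK0
    (fun n x => ¬ PcV μ K.ord F x n) (fun n hn => l3v_null (hGd n hn))
  refine ⟨C ∩ {b | IsSuccLimit b}, Pool.Agent.H54.CL.clb_inter hK0 hK hC
    (Pool.Agent.H17.PRK.l3_lim hK0), ?_⟩
  intro x hx
  -- the least element of `x`
  have hne : ({a : Ordinal.{u} | a.toZFSet ∈ x}).Nonempty := by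
    obtain ⟨z, hz⟩ := hx.ne
    obtain ⟨a, _, _, _, rfl⟩ := hx.mem z hz
    exact ⟨a, hz⟩
  obtain ⟨m, hmx, hmin⟩ := WellFounded.has_min (wellFounded_lt (α := Ordinal.{u})) _ hne
  have hmx' : m.toZFSet ∈ x := hmx
  obtain ⟨a, ha, haC, _, hma⟩ := hx.mem _ hmx'
  have hmeq : m = a := toZFSet_injective hma
  subst hmeq
  have hlim : IsSuccLimit m := haC.2
  have hsm : SmS μ K.ord C x := by
    refine ⟨hx.ne, fun z hz => ?_, hx.few⟩
    obtain ⟨a, h1, h2, h3, h4⟩ := hx.mem z hz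
    exact ⟨a, h1, h2.1, h3, h4⟩
  have hpos : ∀ n < m, PcV μ K.ord F x n := by
    intro n hn
    refine not_not.1 (hCP x hsm n ?_)
    intro a ha
    exact hn.trans_le (not_lt.1 fun h => hmin a ha h)
  refine ⟨ZFSet.sep (fun R => ∀ n ∈ m.toZFSet, QV μ K.ord F n R)
    (ZFSet.powerset (ZFSet.prod m.toZFSet (V_ l))), ?_, ?_, ?_⟩
  · refine Pool.Agent.H45.NF.od_sep (Pool.Agent.H45.NF.od_powerset
      (l3v_prod (OD.ordinal m) (NF.od_V l))) ?_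
    refine DZ.od (R := fun b v => ∀ n ∈ b, QV μ K.ord F n (v 0)) (OD.ordinal m) ?_
    refine DZ.allMem (R := fun n v => QV μ K.ord F n (v 1)) 0 ?_
    exact (l3v_dz μ K.ord hF).ren fun n => if n = 0 then 0 else 2
  · rw [ZFSet.mem_sep, ZFSet.mem_powerset]
    refine ⟨fun z hz => ?_, fun n hn => ?_⟩
    · obtain ⟨k, a, rfl, hal, hk⟩ := hReg x z hz
      exact ZFSet.pair_mem_prod.2 ⟨hk _ hmx', hal⟩
    · obtain ⟨n, hn', rfl⟩ := mem_toZFSet_iff.1 hn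
      refine ⟨ZFSet.isOrdinal_toZFSet _, ZFSet.isOrdinal_toZFSet _, ?_⟩
      rw [rank_toZFSet, rank_toZFSet]
      intro E hE
      obtain ⟨y, hy, hy2⟩ := hpos n hn' E hE
      refine ⟨y, hy, fun k hk a => ?_⟩
      obtain ⟨k, hk', rfl⟩ := mem_toZFSet_iff.1 hk
      rw [hy2 k hk' a]
      unfold sx
      rw [ZFSet.mem_sep]
      exact ⟨fun h => ⟨ZFSet.pair_mem_prod.2 ⟨hFK x _ a h, hVal x k a h⟩, h⟩, fun h => h.2⟩
  · refine h3 D K hDr hDs hD0 hK hDK μ l F hFew hGd m ha hlim _ ?_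
    intro R hR
    rw [ZFSet.mem_sep, ZFSet.mem_powerset] at hR
    refine ⟨hR.1, fun n hn => ?_⟩
    obtain ⟨_, _, h4⟩ := hR.2 n.toZFSet (toZFSet_mem_toZFSet_iff.2 hn)
    rw [rank_toZFSet, rank_toZFSet] at h4
    intro E hE
    obtain ⟨y, hy, hy2⟩ := h4 E hE
    exact ⟨y, hy, fun k hk a => hy2 _ (toZFSet_mem_toZFSet_iff.2 hk) a⟩

end Pool.Agent.H67.HV
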