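import Pool.Agent.H97.HV.Targets2
import Pool.Agent.H97.PRK.All

/-!
# Board hov_modules (MP_e37c09_lc), row LAV
-/

open Ordinal Cardinal Order Set
open scoped ZFSet

universe u

namespace Pool.Agent.H67.HV

open _root_.HD HD.PRK HD.HV

theorem lav_snd (i j : ℕ) : Loc.{u} fun v => ∃ a, v i = ZFSet.pair (v j) a :=
  Loc.ex (R := fun a v => v i = ZFSet.pair (v j) a) (loc_pair (i + 1) (j + 1) 0)
    fun η _ v hv a ha => by
      have h1 : ZFSet.pair (v j) a ∈ V_ η := by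
        rw [← ha]
        exact hv i
      have h2 : {v j, a} ∈ ZFSet.pair (v j) a := by
        unfold ZFSet.pair
        simp
      have h3 : a ∈ ({v j, a} : ZFSet.{u}) := by simp
      exact mem_V_of_mem h3 (mem_V_of_mem h2 h1)

theorem lav_half (f x y i : ℕ) : Loc.{u} fun v => ∀ a,
    ZFSet.pair (v x) (ZFSet.pair (v i) a) ∈ v f → ZFSet.pair (v y) (ZFSet.pair (v i) a) ∈ v f := by
  refine Loc.congr (P := fun v => ∀ w, ZFSet.pair (v x) w ∈ v f →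
    ((∃ a, w = ZFSet.pair (v i) a) → ZFSet.pair (v y) w ∈ v f)) ?_ fun v => ?_
  · exact Loc.allSnd (R := fun w v => (∃ a, w = ZFSet.pair (v i) a) → ZFSet.pair (v y) w ∈ v f)
      x f ((lav_snd 0 (i + 1)).imp (loc_pmem (y + 1) 0 (f + 1)))
  · constructor
    · rintro h w hw ⟨a, rfl⟩
      exact h a hw
    · intro h a ha
      exact h _ ha ⟨a, rfl⟩

theorem lav_eqv (f x y i : ℕ) : Loc.{u} fun v => ∀ a,
    ZFSet.pair (v x) (ZFSet.pair (v i) a) ∈ v f ↔ ZFSet.pair (v y) (ZFSet.pair (v i) a) ∈ v f :=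
  Loc.congr ((lav_half f x y i).and (lav_half f y x i)) fun _ =>
    ⟨fun h => ⟨fun a => (h a).1, fun a => (h a).2⟩, fun h a => ⟨h.1 a, h.2 a⟩⟩

theorem agV_iff {F x y : ZFSet.{u}} {i : Ordinal.{u}} : AgV F x y i ↔ ∀ k ∈ i.toZFSet, ∀ a,
    ZFSet.pair x (ZFSet.pair k a) ∈ F ↔ ZFSet.pair y (ZFSet.pair k a) ∈ F := by
  constructor
  · intro h k hk
    obtain ⟨b, hb, rfl⟩ := mem_toZFSet_iff.1 hk
    exact h b hb
  · intro h k hk
    exact h _ (toZFSet_mem_toZFSet_iff.2 hk)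

theorem pf_LAV : T_LAV.{u} := by
  refine ⟨?_, ?_, ?_⟩
  · refine Loc.congr ((loc_ord 3).and (lav_eqv 0 1 2 3)) fun v => and_congr_right fun h => ?_
    unfold Eqv
    rw [h.toZFSet_rank_eq]
  · refine Loc.congr ((loc_ord 3).and (Loc.allMem (R := fun k v => ∀ a,
      ZFSet.pair (v 1) (ZFSet.pair k a) ∈ v 0 ↔ ZFSet.pair (v 2) (ZFSet.pair k a) ∈ v 0) 3
      (lav_eqv 1 2 3 0))) fun v => and_congr_right fun h => ?_
    rw [agV_iff, h.toZFSet_rank_eq]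
  · have h1 : Loc.{u} fun v => (v 0).IsOrdinal ∧ (v 1).IsOrdinal ∧
        PosX (v 0).rank (v 1).rank (fun y => ∀ k ∈ v 4, ∀ a,
          ZFSet.pair y (ZFSet.pair k a) ∈ v 2 ↔ ZFSet.pair (v 3) (ZFSet.pair k a) ∈ v 2) := by
      refine Pool.Agent.H97.PRK.a_LPX (fun y v => ∀ k ∈ v 4, ∀ a,
        ZFSet.pair y (ZFSet.pair k a) ∈ v 2 ↔ ZFSet.pair (v 3) (ZFSet.pair k a) ∈ v 2) ?_ 0 1
      exact Loc.allMem (R := fun k v => ∀ a, ZFSet.pair (v 0) (ZFSet.pair k a) ∈ v 3 ↔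
        ZFSet.pair (v 4) (ZFSet.pair k a) ∈ v 3) 5 (lav_eqv 4 1 5 0)
    refine Loc.congr (h1.and (loc_ord 4)) fun v => ?_
    have key : (v 4).IsOrdinal → (PcV (v 0).rank (v 1).rank (v 2) (v 3) (v 4).rank ↔
        PosX (v 0).rank (v 1).rank (fun y => ∀ k ∈ v 4, ∀ a,
          ZFSet.pair y (ZFSet.pair k a) ∈ v 2 ↔ ZFSet.pair (v 3) (ZFSet.pair k a) ∈ v 2)) := by
      intro h
      unfold PcV
      refine Pool.Agent.H67.PRK.posX_congr fun y => ?_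
      rw [agV_iff, h.toZFSet_rank_eq]
    constructor
    · rintro ⟨a0, a1, a4, hp⟩
      exact ⟨⟨a0, a1, (key a4).1 hp⟩, a4⟩
    · rintro ⟨⟨a0, a1, hp⟩, a4⟩
      exact ⟨a0, a1, a4, (key a4).2 hp⟩

end Pool.Agent.H67.HV
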