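import Pool.Agent.H97.HV.Targets6
import Pool.Agent.H97.HV.WDefs

/-!
# Board hov_modules (MP_e37c09_lc), row MIF: a minimal function
-/

open Ordinal Cardinal Order Set
open scoped ZFSet

universe u

namespace Pool.Agent.H67.HV

open _root_.HD HD.PRK HD.HV

/-! ## The step -/

/-- `s` is the set of all `b ∈ k` at which `f` is greater than `c` -/
def AbS (k f c s : ZFSet.{u}) : Prop := ∀ b, b ∈ s ↔ b ∈ k ∧
  ∀ d : ZFSet.{u}, d.IsOrdinal → ZFSet.pair b d ∈ f → c ∈ d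

/-- `s` is the set of the `b ∈ k` at which `g` is less than `f` -/
def LeS (k g f s : ZFSet.{u}) : Prop := ∀ b, b ∈ s ↔ b ∈ k ∧
  ∀ c d : ZFSet.{u}, c.IsOrdinal → d.IsOrdinal → ZFSet.pair b c ∈ g → ZFSet.pair b d ∈ f → c ∈ d

/-- `c` is a code of `f` -/
def Cod (en : Ordinal.{u} → ZFSet.{u}) (U f c : ZFSet.{u}) : Prop := c.IsOrdinal ∧
  ∀ e, (c.IsOrdinal ∧ e = en c.rank) → ∀ w, ZFSet.pair U w ∈ e ↔ w = f

/-- `g` is an unbounded function less than `f` with the code `c` -/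
def Nx (en : Ordinal.{u} → ZFSet.{u}) (k U f g c : ZFSet.{u}) : Prop :=
  ZFSet.IsFunc k k g ∧ (∀ x ∈ k, ∃ s ∈ U, AbS k g x s) ∧ (∃ s ∈ U, LeS k g f s) ∧ Cod en U g c

/-- `g` is the unbounded function less than `f` with the least code -/
def St (en : Ordinal.{u} → ZFSet.{u}) (k U f g : ZFSet.{u}) : Prop :=
  ∃ c, Nx en k U f g c ∧ ∀ c' ∈ c, ∀ g', ¬ Nx en k U f g' c'

theorem dz_AbS (k f c s : ℕ) : DZ.{u} fun v => AbS (v k) (v f) (v c) (v s) :=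
  DZ.all (R := fun b v => b ∈ v s ↔ b ∈ v k ∧
    ∀ d : ZFSet.{u}, d.IsOrdinal → ZFSet.pair b d ∈ v f → v c ∈ d)
    ((DZ.mem 0 (s + 1)).iff ((DZ.mem 0 (k + 1)).and
      (DZ.all (R := fun d v => d.IsOrdinal → ZFSet.pair (v 0) d ∈ v (f + 1) → v (c + 1) ∈ d)
        ((DZ.ord 0).imp ((loc_pmem 1 0 (f + 2)).dz.imp (DZ.mem (c + 2) 0))))))

theorem dz_LeS (k g f s : ℕ) : DZ.{u} fun v => LeS (v k) (v g) (v f) (v s) :=
  DZ.all (R := fun b v => b ∈ v s ↔ b ∈ v k ∧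
    ∀ c d : ZFSet.{u}, c.IsOrdinal → d.IsOrdinal → ZFSet.pair b c ∈ v g → ZFSet.pair b d ∈ v f →
      c ∈ d)
    ((DZ.mem 0 (s + 1)).iff ((DZ.mem 0 (k + 1)).and
      (DZ.all (R := fun c v => ∀ d : ZFSet.{u}, c.IsOrdinal → d.IsOrdinal →
        ZFSet.pair (v 0) c ∈ v (g + 1) → ZFSet.pair (v 0) d ∈ v (f + 1) → c ∈ d)
        (DZ.all (R := fun d v => (v 0).IsOrdinal → d.IsOrdinal →
          ZFSet.pair (v 1) (v 0) ∈ v (g + 2) → ZFSet.pair (v 1) d ∈ v (f + 2) → v 0 ∈ d)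
          ((DZ.ord 1).imp ((DZ.ord 0).imp ((loc_pmem 2 1 (g + 3)).dz.imp
            ((loc_pmem 2 0 (f + 3)).dz.imp (DZ.mem 1 0)))))))))

theorem dz_Cod {en : Ordinal.{u} → ZFSet.{u}} (hen : EN en) (U f c : ℕ) :
    DZ.{u} fun v => Cod en (v U) (v f) (v c) :=
  (DZ.ord c).and (DZ.all (R := fun e v => ((v c).IsOrdinal ∧ e = en (v c).rank) →
    ∀ w, ZFSet.pair (v U) w ∈ e ↔ w = v f)
    ((hen.dz.ren fun n => if n = 0 then c + 1 else 0).imp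
      (DZ.all (R := fun w v => ZFSet.pair (v (U + 1)) w ∈ v 0 ↔ w = v (f + 1))
        ((loc_pmem (U + 2) 0 1).dz.iff (DZ.eq 0 (f + 2))))))

theorem dz_Nx {en : Ordinal.{u} → ZFSet.{u}} (hen : EN en) (k U f g c : ℕ) :
    DZ.{u} fun v => Nx en (v k) (v U) (v f) (v g) (v c) :=
  (loc_func k k g).dz.and
    ((DZ.allMem (R := fun x v => ∃ s ∈ v U, AbS (v k) (v g) x s) k
      (DZ.exMem (R := fun s v => AbS (v (k + 1)) (v (g + 1)) (v 0) s) (U + 1)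
        (dz_AbS (k + 2) (g + 2) 1 0))).and
    ((DZ.exMem (R := fun s v => LeS (v k) (v g) (v f) s) U
      (dz_LeS (k + 1) (g + 1) (f + 1) 0)).and (dz_Cod hen U g c)))

theorem dz_St {en : Ordinal.{u} → ZFSet.{u}} (hen : EN en) (k U f g : ℕ) :
    DZ.{u} fun v => St en (v k) (v U) (v f) (v g) :=
  DZ.ex (R := fun c v => Nx en (v k) (v U) (v f) (v g) c ∧
    ∀ c' ∈ c, ∀ g', ¬ Nx en (v k) (v U) (v f) g' c')
    ((dz_Nx hen (k + 1) (U + 1) (f + 1) (g + 1) 0).and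
      (DZ.allMem (R := fun c' v => ∀ g', ¬ Nx en (v (k + 1)) (v (U + 1)) (v (f + 1)) g' c') 0
        (DZ.all (R := fun g' v => ¬ Nx en (v (k + 2)) (v (U + 2)) (v (f + 2)) g' (v 0))
          (dz_Nx hen (k + 3) (U + 3) (f + 3) 0 1).not)))

/-! ## The sequence -/

/-- `m` is the successor of `n` -/
def Sc (n m : ZFSet.{u}) : Prop := ∀ t, t ∈ m ↔ t ∈ n ∨ t = n

theorem dz_Sc (n m : ℕ) : DZ.{u} fun v => Sc (v n) (v m) :=
  DZ.all (R := fun t v => t ∈ v m ↔ t ∈ v n ∨ t = v n)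
    ((DZ.mem 0 (m + 1)).iff ((DZ.mem 0 (n + 1)).or (DZ.eq 0 (n + 1))))

/-- `z` is the sequence of the functions -/
def QZ (en : Ordinal.{u} → ZFSet.{u}) (W i k z U : ZFSet.{u}) : Prop :=
  (∀ p ∈ z, ∃ n ∈ W, ∃ y, p = ZFSet.pair n y) ∧
  ∀ n ∈ W, ∀ y, ZFSet.pair n y ∈ z ↔ ((n = ∅ ∧ y = i) ∨
    ∃ m ∈ n, Sc m n ∧ ∃ x, ZFSet.pair m x ∈ z ∧ St en k U x y)

theorem dz_QZ {en : Ordinal.{u} → ZFSet.{u}} (hen : EN en) (W i k z U : ℕ) :
    DZ.{u} fun v => QZ en (v W) (v i) (v k) (v z) (v U) :=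
  (DZ.allMem (R := fun p v => ∃ n ∈ v W, ∃ y, p = ZFSet.pair n y) z
    (DZ.exMem (R := fun n v => ∃ y, v 0 = ZFSet.pair n y) (W + 1)
      (DZ.ex (R := fun y v => v 1 = ZFSet.pair (v 0) y) (loc_pair 2 1 0).dz))).and
  (DZ.allMem (R := fun n v => ∀ y, ZFSet.pair n y ∈ v z ↔ ((n = ∅ ∧ y = v i) ∨
      ∃ m ∈ n, Sc m n ∧ ∃ x, ZFSet.pair m x ∈ v z ∧ St en (v k) (v U) x y)) W
    (DZ.all (R := fun y v => ZFSet.pair (v 0) y ∈ v (z + 1) ↔ ((v 0 = ∅ ∧ y = v (i + 1)) ∨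
      ∃ m ∈ v 0, Sc m (v 0) ∧ ∃ x, ZFSet.pair m x ∈ v (z + 1) ∧
        St en (v (k + 1)) (v (U + 1)) x y))
      ((loc_pmem 1 0 (z + 2)).dz.iff (((loc_empty 1).dz.and (DZ.eq 0 (i + 2))).or
        (DZ.exMem (R := fun m v => Sc m (v 1) ∧ ∃ x, ZFSet.pair m x ∈ v (z + 2) ∧
          St en (v (k + 2)) (v (U + 2)) x (v 0)) 1
          ((dz_Sc 0 2).and (DZ.ex (R := fun x v => ZFSet.pair (v 0) x ∈ v (z + 3) ∧
            St en (v (k + 3)) (v (U + 3)) x (v 1))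
            ((loc_pmem 1 0 (z + 4)).dz.and (dz_St hen (k + 4) (U + 4) 0 2)))))))))

/-- `z` is an element of the sequence of the sets in `U` -/
def PF (en : Ordinal.{u} → ZFSet.{u}) (W i k U z : ZFSet.{u}) : Prop :=
  ∃ Y, QZ en W i k Y U ∧ ∃ n ∈ W, ∃ m ∈ W, Sc n m ∧ ∃ f, ZFSet.pair n f ∈ Y ∧
    ∃ g, ZFSet.pair m g ∈ Y ∧ ∃ X, z = ZFSet.pair n X ∧ LeS k g f X

theorem dz_PF {en : Ordinal.{u} → ZFSet.{u}} (hen : EN en) (W i k U z : ℕ) :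
    DZ.{u} fun v => PF en (v W) (v i) (v k) (v U) (v z) :=
  DZ.ex (R := fun Y v => QZ en (v W) (v i) (v k) Y (v U) ∧ ∃ n ∈ v W, ∃ m ∈ v W, Sc n m ∧
    ∃ f, ZFSet.pair n f ∈ Y ∧ ∃ g, ZFSet.pair m g ∈ Y ∧ ∃ X, v z = ZFSet.pair n X ∧
      LeS (v k) g f X)
    ((dz_QZ hen (W + 1) (i + 1) (k + 1) 0 (U + 1)).and
      (DZ.exMem (R := fun n v => ∃ m ∈ v (W + 1), Sc n m ∧
        ∃ f, ZFSet.pair n f ∈ v 0 ∧ ∃ g, ZFSet.pair m g ∈ v 0 ∧
          ∃ X, v (z + 1) = ZFSet.pair n X ∧ LeS (v (k + 1)) g f X) (W + 1)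
        (DZ.exMem (R := fun m v => Sc (v 0) m ∧
          ∃ f, ZFSet.pair (v 0) f ∈ v 1 ∧ ∃ g, ZFSet.pair m g ∈ v 1 ∧
            ∃ X, v (z + 2) = ZFSet.pair (v 0) X ∧ LeS (v (k + 2)) g f X) (W + 2)
          ((dz_Sc 1 0).and (DZ.ex (R := fun f v => ZFSet.pair (v 1) f ∈ v 2 ∧
            ∃ g, ZFSet.pair (v 0) g ∈ v 2 ∧
              ∃ X, v (z + 3) = ZFSet.pair (v 1) X ∧ LeS (v (k + 3)) g f X)
            ((loc_pmem 2 0 3).dz.and (DZ.ex (R := fun g v => ZFSet.pair (v 1) g ∈ v 3 ∧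
              ∃ X, v (z + 4) = ZFSet.pair (v 2) X ∧ LeS (v (k + 4)) g (v 0) X)
              ((loc_pmem 2 0 4).dz.and (DZ.ex (R := fun X v => v (z + 5) = ZFSet.pair (v 3) X ∧
                LeS (v (k + 5)) (v 0) (v 1) X)
                ((loc_pair (z + 6) 4 0).dz.and (dz_LeS (k + 6) 1 2 0)))))))))))

/-! ## The predicates for functions on ordinals -/

theorem abS_iff {κ c : Ordinal.{u}} {f s : ZFSet.{u}} : AbS κ.toZFSet f c.toZFSet s ↔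
    s = (κ.toZFSet).sep (fun b => ∀ d : Ordinal.{u}, ZFSet.pair b d.toZFSet ∈ f → c < d) := by
  have h : ∀ b : ZFSet.{u}, (∀ d : ZFSet.{u}, d.IsOrdinal → ZFSet.pair b d ∈ f → c.toZFSet ∈ d) ↔
      ∀ d : Ordinal.{u}, ZFSet.pair b d.toZFSet ∈ f → c < d := by
    intro b
    constructor
    · intro h d hd
      exact toZFSet_mem_toZFSet_iff.1 (h _ (ZFSet.isOrdinal_toZFSet d) hd)
    · intro h d hd hp
      obtain ⟨a, rfl⟩ := ord_of hd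
      exact toZFSet_mem_toZFSet_iff.2 (h a hp)
  constructor
  · intro hs
    ext b
    rw [ZFSet.mem_sep, ← h]
    exact hs b
  · rintro rfl b
    rw [ZFSet.mem_sep, ← h]

theorem leS_iff {κ : Ordinal.{u}} {g f s : ZFSet.{u}} : LeS κ.toZFSet g f s ↔
    s = (κ.toZFSet).sep (fun b => ∀ c d : Ordinal.{u}, ZFSet.pair b c.toZFSet ∈ g →
      ZFSet.pair b d.toZFSet ∈ f → c < d) := by
  have h : ∀ b : ZFSet.{u}, (∀ c d : ZFSet.{u}, c.IsOrdinal → d.IsOrdinal →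
      ZFSet.pair b c ∈ g → ZFSet.pair b d ∈ f → c ∈ d) ↔
      ∀ c d : Ordinal.{u}, ZFSet.pair b c.toZFSet ∈ g → ZFSet.pair b d.toZFSet ∈ f → c < d := by
    intro b
    constructor
    · intro h c d hc hd
      exact toZFSet_mem_toZFSet_iff.1
        (h _ _ (ZFSet.isOrdinal_toZFSet c) (ZFSet.isOrdinal_toZFSet d) hc hd)
    · intro h c d hc hd h1 h2
      obtain ⟨a, rfl⟩ := ord_of hc
      obtain ⟨b, rfl⟩ := ord_of hd
      exact toZFSet_mem_toZFSet_iff.2 (h a b h1 h2)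
  constructor
  · intro hs
    ext b
    rw [ZFSet.mem_sep, ← h]
    exact hs b
  · rintro rfl b
    rw [ZFSet.mem_sep, ← h]

theorem cod_iff {en : Ordinal.{u} → ZFSet.{u}} {U f : ZFSet.{u}} {c : Ordinal.{u}} :
    Cod en U f c.toZFSet ↔ ∀ w, ZFSet.pair U w ∈ en c ↔ w = f := by
  constructor
  · intro h
    exact h.2 (en c) ⟨ZFSet.isOrdinal_toZFSet c, by rw [rank_toZFSet]⟩
  · intro h
    refine ⟨ZFSet.isOrdinal_toZFSet c, ?_⟩
    rintro e ⟨-, rfl⟩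
    rw [rank_toZFSet]
    exact h

theorem odp_of_cod {en : Ordinal.{u} → ZFSet.{u}} (hen : EN en) {U f c : ZFSet.{u}}
    (h : Cod en U f c) : NF.ODp U f := by
  obtain ⟨a, rfl⟩ := ord_of h.1
  exact (Pool.Agent.H45.NF.pf_pa U f).2 ⟨en a, (hen.od _).2 ⟨a, rfl⟩, cod_iff.1 h⟩

theorem nx_of {en : Ordinal.{u} → ZFSet.{u}} (hen : EN en) {κ : Ordinal.{u}}
    {U f g : ZFSet.{u}} (h1 : UBf κ U g) (h2 : LTf κ U g f) :
    ∃ c : Ordinal.{u}, Nx en κ.toZFSet U f g c.toZFSet := by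
  obtain ⟨R, hR, hR'⟩ := (Pool.Agent.H45.NF.pf_pa U g).1 h1.1
  obtain ⟨c, rfl⟩ := (hen.od _).1 hR
  refine ⟨c, h1.2.1, fun x hx => ?_, ⟨_, h2, leS_iff.2 rfl⟩, cod_iff.2 hR'⟩
  obtain ⟨a, ha, rfl⟩ := mem_toZFSet_iff.1 hx
  exact ⟨_, h1.2.2 a ha, abS_iff.2 rfl⟩

theorem of_nx {en : Ordinal.{u} → ZFSet.{u}} (hen : EN en) {κ : Ordinal.{u}}
    {U f g c : ZFSet.{u}} (h : Nx en κ.toZFSet U f g c) : UBf κ U g ∧ LTf κ U g f := by
  obtain ⟨h1, h2, ⟨s, hs, h3⟩, h4⟩ := h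
  refine ⟨⟨odp_of_cod hen h4, h1, fun a ha => ?_⟩, ?_⟩
  · obtain ⟨s, hs, h5⟩ := h2 _ (toZFSet_mem_toZFSet_iff.2 ha)
    rw [abS_iff] at h5
    rw [← h5]
    exact hs
  · rw [leS_iff] at h3
    unfold LTf
    rw [← h3]
    exact hs

theorem st_ex {en : Ordinal.{u} → ZFSet.{u}} (hen : EN en) {κ : Ordinal.{u}}
    {U f g : ZFSet.{u}} (h1 : UBf κ U g) (h2 : LTf κ U g f) :
    ∃ g', St en κ.toZFSet U f g' := by
  obtain ⟨c, hc⟩ := nx_of hen h1 h2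
  obtain ⟨d, ⟨g', hd⟩, hmin⟩ := WellFounded.has_min (wellFounded_lt (α := Ordinal.{u}))
    {c | ∃ g, Nx en κ.toZFSet U f g c.toZFSet} ⟨c, g, hc⟩
  refine ⟨g', d.toZFSet, hd, fun c' hc' g'' hg'' => ?_⟩
  obtain ⟨a, ha, rfl⟩ := mem_toZFSet_iff.1 hc'
  exact hmin a ⟨g'', hg''⟩ ha

theorem st_uni {en : Ordinal.{u} → ZFSet.{u}} {k U f g g' : ZFSet.{u}}
    (h : St en k U f g) (h' : St en k U f g') : g = g' := by
  obtain ⟨c, h1, h2⟩ := h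
  obtain ⟨c', h1', h2'⟩ := h'
  obtain ⟨a, rfl⟩ := ord_of h1.2.2.2.1
  obtain ⟨a', rfl⟩ := ord_of h1'.2.2.2.1
  have e : a = a' := by
    rcases lt_trichotomy a a' with h | h | h
    · exact absurd h1 (h2' _ (toZFSet_mem_toZFSet_iff.2 h) _)
    · exact h
    · exact absurd h1' (h2 _ (toZFSet_mem_toZFSet_iff.2 h) _)
  subst e
  exact (cod_iff.1 h1'.2.2.2 g).1 ((cod_iff.1 h1.2.2.2 g).2 rfl)

/-! ## Sequences of length `ω` -/

/-- the natural number `n` as a set -/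
noncomputable def nn (n : ℕ) : ZFSet.{u} := (n : Ordinal.{u}).toZFSet

theorem mem_W {z : ZFSet.{u}} : z ∈ (ω : Ordinal.{u}).toZFSet ↔ ∃ n : ℕ, z = nn n := by
  constructor
  · intro h
    obtain ⟨a, ha, rfl⟩ := mem_toZFSet_iff.1 h
    obtain ⟨n, rfl⟩ := Ordinal.lt_omega0.1 ha
    exact ⟨n, rfl⟩
  · rintro ⟨n, rfl⟩
    exact toZFSet_mem_toZFSet_iff.2 (Ordinal.natCast_lt_omega0 n)

theorem nn_inj {m n : ℕ} (h : nn.{u} m = nn n) : m = n := by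
  have := toZFSet_injective h
  exact_mod_cast this

theorem sc_nn {n m : ℕ} : Sc (nn.{u} n) (nn m) ↔ m = n + 1 := by
  constructor
  · intro h
    have h1 : nn.{u} n ∈ nn m := (h _).2 (Or.inr rfl)
    have h2 : n < m := by
      have := toZFSet_mem_toZFSet_iff.1 h1
      exact_mod_cast this
    by_contra hne
    have h3 : n + 1 < m := by omega
    have h4 : nn.{u} (n + 1) ∈ nn m := by
      refine toZFSet_mem_toZFSet_iff.2 ?_
      exact_mod_cast h3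
    rcases (h _).1 h4 with h5 | h5
    · have := toZFSet_mem_toZFSet_iff.1 h5
      have h6 : n + 1 < n := by exact_mod_cast this
      omega
    · have := nn_inj h5
      omega
  · rintro rfl t
    unfold nn
    constructor
    · intro h
      obtain ⟨a, ha, rfl⟩ := mem_toZFSet_iff.1 h
      have h1 : a < succ (n : Ordinal.{u}) := by
        rw [Order.succ_eq_add_one]
        exact_mod_cast ha
      rcases (lt_succ_iff.1 h1).lt_or_eq with h2 | h2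
      · exact Or.inl (toZFSet_mem_toZFSet_iff.2 h2)
      · exact Or.inr (by rw [h2])
    · rintro (h | rfl)
      · obtain ⟨a, ha, rfl⟩ := mem_toZFSet_iff.1 h
        refine toZFSet_mem_toZFSet_iff.2 (ha.trans ?_)
        exact_mod_cast Nat.lt_succ_self n
      · refine toZFSet_mem_toZFSet_iff.2 ?_
        exact_mod_cast Nat.lt_succ_self n

/-- the sequence `f` as a set -/
noncomputable def sq (f : ℕ → ZFSet.{u}) : ZFSet.{u} := gr (fun a => f (Cardinal.toNat a.card)) ω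

theorem mem_sq {f : ℕ → ZFSet.{u}} {p : ZFSet.{u}} :
    p ∈ sq f ↔ ∃ n : ℕ, p = ZFSet.pair (nn n) (f n) := by
  unfold sq
  rw [mem_gr]
  constructor
  · rintro ⟨b, hb, rfl⟩
    obtain ⟨n, rfl⟩ := Ordinal.lt_omega0.1 hb
    exact ⟨n, by simp [nn]⟩
  · rintro ⟨n, rfl⟩
    exact ⟨n, Ordinal.natCast_lt_omega0 n, by simp [nn]⟩

theorem pair_mem_sq {f : ℕ → ZFSet.{u}} {n : ℕ} {y : ZFSet.{u}} :
    ZFSet.pair (nn n) y ∈ sq f ↔ y = f n := by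
  rw [mem_sq]
  constructor
  · rintro ⟨m, h⟩
    obtain ⟨h1, rfl⟩ := ZFSet.pair_injective h
    rw [nn_inj h1]
  · rintro rfl
    exact ⟨n, rfl⟩

theorem nn_zero : nn.{u} 0 = ∅ := by
  unfold nn
  rw [Nat.cast_zero, toZFSet_zero]

theorem nn_succ_ne (n : ℕ) : nn.{u} (n + 1) ≠ ∅ := by
  intro h
  rw [← nn_zero] at h
  have := nn_inj h
  omega

theorem qz_step {en : Ordinal.{u} → ZFSet.{u}} {k U z : ZFSet.{u}} {f : ℕ → ZFSet.{u}}
    (hf : ∀ n, St en k U (f n) (f (n + 1))) {n : ℕ}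
    (hz : ∀ y, ZFSet.pair (nn n) y ∈ z ↔ y = f n) (y : ZFSet.{u}) :
    ((nn (n + 1) = ∅ ∧ y = f 0) ∨ ∃ m ∈ nn (n + 1), Sc m (nn (n + 1)) ∧
      ∃ x, ZFSet.pair m x ∈ z ∧ St en k U x y) ↔ y = f (n + 1) := by
  constructor
  · rintro (⟨h, -⟩ | ⟨m, hm, hsc, x, hx, hst⟩)
    · exact absurd h (nn_succ_ne n)
    · obtain ⟨a, ha, rfl⟩ := mem_toZFSet_iff.1 hm
      obtain ⟨b, rfl⟩ := Ordinal.lt_omega0.1 (ha.trans (Ordinal.natCast_lt_omega0 _))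
      have h1 : n + 1 = b + 1 := sc_nn.1 hsc
      have h2 : b = n := by omega
      subst h2
      rw [(hz x).1 hx] at hst
      exact st_uni hst (hf b)
  · rintro rfl
    refine Or.inr ⟨nn n, ?_, sc_nn.2 rfl, f n, (hz _).2 rfl, hf n⟩
    exact (sc_nn.2 rfl _).2 (Or.inr rfl)

theorem qz_iff {en : Ordinal.{u} → ZFSet.{u}} {k U z : ZFSet.{u}} {f : ℕ → ZFSet.{u}}
    (hf : ∀ n, St en k U (f n) (f (n + 1))) :
    QZ en (ω : Ordinal.{u}).toZFSet (f 0) k z U ↔ z = sq f := by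
  constructor
  · rintro ⟨h1, h2⟩
    have h3 : ∀ n y, ZFSet.pair (nn n) y ∈ z ↔ y = f n := by
      intro n
      induction n with
      | zero =>
        intro y
        rw [h2 _ (mem_W.2 ⟨0, rfl⟩) y]
        constructor
        · rintro (⟨-, h⟩ | ⟨m, hm, -⟩)
          · exact h
          · rw [nn_zero] at hm
            exact absurd hm (ZFSet.notMem_empty m)
        · intro h
          exact Or.inl ⟨nn_zero, h⟩
      | succ n ih =>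
        intro y
        rw [h2 _ (mem_W.2 ⟨n + 1, rfl⟩) y]
        exact qz_step hf ih y
    ext p
    constructor
    · intro hp
      obtain ⟨n, hn, y, rfl⟩ := h1 p hp
      obtain ⟨n, rfl⟩ := mem_W.1 hn
      exact pair_mem_sq.2 ((h3 n y).1 hp)
    · intro hp
      obtain ⟨n, rfl⟩ := mem_sq.1 hp
      exact (h3 n _).2 rfl
  · rintro rfl
    refine ⟨fun p hp => ?_, fun n hn y => ?_⟩
    · obtain ⟨n, rfl⟩ := mem_sq.1 hp
      exact ⟨_, mem_W.2 ⟨n, rfl⟩, _, rfl⟩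
    · obtain ⟨n, rfl⟩ := mem_W.1 hn
      rw [pair_mem_sq]
      rcases n with _ | n
      · constructor
        · intro h
          exact Or.inl ⟨nn_zero, h⟩
        · rintro (⟨-, h⟩ | ⟨m, hm, -⟩)
          · exact h
          · rw [nn_zero] at hm
            exact absurd hm (ZFSet.notMem_empty m)
      · exact (qz_step hf (fun y => pair_mem_sq) y).symm

theorem pf_iff {en : Ordinal.{u} → ZFSet.{u}} {κ : Ordinal.{u}} {U z : ZFSet.{u}}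
    {f : ℕ → ZFSet.{u}} (hf : ∀ n, St en κ.toZFSet U (f n) (f (n + 1))) :
    PF en (ω : Ordinal.{u}).toZFSet (f 0) κ.toZFSet U z ↔
      z ∈ sq fun n => (κ.toZFSet).sep (fun b => ∀ c d : Ordinal.{u},
        ZFSet.pair b c.toZFSet ∈ f (n + 1) → ZFSet.pair b d.toZFSet ∈ f n → c < d) := by
  constructor
  · rintro ⟨Y, hY, n, hn, m, hm, hsc, g, hg, g', hg', X, rfl, hX⟩
    obtain ⟨n, rfl⟩ := mem_W.1 hn
    obtain ⟨m, rfl⟩ := mem_W.1 hm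
    have h1 := sc_nn.1 hsc
    subst h1
    rw [qz_iff hf] at hY
    subst hY
    rw [pair_mem_sq] at hg hg'
    subst hg
    subst hg'
    exact pair_mem_sq.2 (leS_iff.1 hX)
  · intro hz
    obtain ⟨n, rfl⟩ := mem_sq.1 hz
    exact ⟨sq f, (qz_iff hf).2 rfl, nn n, mem_W.2 ⟨n, rfl⟩, nn (n + 1), mem_W.2 ⟨n + 1, rfl⟩,
      sc_nn.2 rfl, f n, pair_mem_sq.2 rfl, f (n + 1), pair_mem_sq.2 rfl, _, rfl, leS_iff.2 rfl⟩

/-! ## The identity -/

/-- the identity on `κ` -/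
noncomputable def idf (κ : Ordinal.{u}) : ZFSet.{u} := gr (fun a => a.toZFSet) κ

theorem idf_od (κ : Ordinal.{u}) : OD (idf κ) := by
  refine OD.of_mem (P := fun v => ∃ b ∈ κ.toZFSet, v 0 = ZFSet.pair b b) ?_ fun z => ?_
  · refine DZ.od (R := fun k v => ∃ b ∈ k, v 0 = ZFSet.pair b b) (OD.ordinal κ) ?_
    exact DZ.exMem (R := fun b v => v 1 = ZFSet.pair b b) 0 (loc_pair 2 0 0).dz
  · unfold idf
    rw [mem_gr]
    constructor
    · rintro ⟨b, hb, h⟩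
      obtain ⟨b, hb', rfl⟩ := mem_toZFSet_iff.1 hb
      exact ⟨b, hb', h⟩
    · rintro ⟨b, hb, h⟩
      exact ⟨_, toZFSet_mem_toZFSet_iff.2 hb, h⟩

theorem idf_ubf (h1 : T_NM2.{u}) {γ : Ordinal.{u}} (hγ : IsSuccLimit γ)
    {K : Cardinal.{u}} (hK : ℵ₀ < K) {U : ZFSet.{u}} (hU : CMeas (NV γ) K.ord U) :
    UBf K.ord U (idf K.ord) := by
  refine ⟨?_, ⟨fun p hp => ?_, fun z hz => ?_⟩, fun c hc => ?_⟩
  · refine Pool.Agent.H45.NF.ODp.of_dz (Q := fun v => v 0 = idf K.ord) ?_ fun y => Iff.rfl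
    exact DZ.od (R := fun b v => v 0 = b) (idf_od K.ord) (DZ.eq 1 0)
  · obtain ⟨b, hb, rfl⟩ := mem_gr.1 hp
    exact ZFSet.pair_mem_prod.2
      ⟨toZFSet_mem_toZFSet_iff.2 hb, toZFSet_mem_toZFSet_iff.2 hb⟩
  · obtain ⟨b, hb, rfl⟩ := mem_toZFSet_iff.1 hz
    exact ⟨b.toZFSet, pair_mem_gr.2 ⟨hb, rfl⟩, fun y hy => (pair_mem_gr.1 hy).2⟩
  · have hlim : IsSuccLimit K.ord := Cardinal.isSuccLimit_ord hK.le
    have e : (K.ord.toZFSet).sep (fun b => ∀ d : Ordinal.{u},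
        ZFSet.pair b d.toZFSet ∈ idf K.ord → c < d) = os K.ord {b | c < b} := by
      ext z
      rw [ZFSet.mem_sep, mem_os]
      constructor
      · rintro ⟨hz, h⟩
        obtain ⟨b, hb, rfl⟩ := mem_toZFSet_iff.1 hz
        exact ⟨b, hb, h b (pair_mem_gr.2 ⟨hb, rfl⟩), rfl⟩
      · rintro ⟨b, hb, h, rfl⟩
        refine ⟨toZFSet_mem_toZFSet_iff.2 hb, fun d hd => ?_⟩
        rw [toZFSet_injective (pair_mem_gr.1 hd).2]
        exact h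
    rw [e]
    have hod : HOD (os K.ord {b | c < b}) := hod_os (show DS {b | c < b} from DO.gtc 0 c) _
    have hsub : os K.ord {b | c < b} ⊆ K.ord.toZFSet := fun z hz => by
      obtain ⟨a, ha, -, rfl⟩ := mem_os.1 hz
      exact toZFSet_mem_toZFSet_iff.2 ha
    by_contra hcon
    have h2 := (hU.ultra _ (HD.HW.nv_hod hγ hod) hsub)
    have h3 : K.ord.toZFSet \ os K.ord {b | c < b} ∈ U := by
      by_contra h4
      exact hcon (h2.2 h4)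
    obtain ⟨a, ha1, ha2, ha3⟩ := (h1 γ hγ K hK U hU).2 _ h3 (succ c) (hlim.succ_lt hc)
    rw [ZFSet.mem_sdiff] at ha3
    exact ha3.2 (ord_mem_os.2 ⟨ha2, succ_le_iff.1 ha1⟩)

/-- MIF. A minimal function. -/
theorem pf_MIF (_h0 : T_PVA.{u}) (h1 : T_NM2.{u}) : T_MIF.{u} := by
  intro γ hγ K hK U hU
  by_contra hcon
  have hcon' : ∀ f, UBf K.ord U f → ∃ g, UBf K.ord U g ∧ LTf K.ord U g f := by
    intro f hf
    by_contra h
    exact hcon ⟨f, hf, fun g hg hlt => h ⟨g, hg, hlt⟩⟩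
  obtain ⟨en, hen⟩ := All.en.{u}
  have hstep : ∀ f : {f // UBf K.ord U f}, ∃ g : {g // UBf K.ord U g},
      St en K.ord.toZFSet U f.1 g.1 := by
    rintro ⟨f, hf⟩
    obtain ⟨g, hg, hlt⟩ := hcon' f hf
    obtain ⟨g', hst⟩ := st_ex hen hg hlt
    obtain ⟨c, hc, hc'⟩ := hst
    exact ⟨⟨g', (of_nx hen hc).1⟩, c, hc, hc'⟩
  choose G hG using hstep
  obtain ⟨F, hF0, hF⟩ : ∃ F : ℕ → {f // UBf K.ord U f},
      (F 0).1 = idf K.ord ∧ ∀ n, F (n + 1) = G (F n) :=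
    ⟨fun n => Nat.rec ⟨idf K.ord, idf_ubf h1 hγ hK hU⟩ (fun _ x => G x) n, rfl, fun n => rfl⟩
  obtain ⟨f, hfF⟩ : ∃ f : ℕ → ZFSet.{u}, ∀ n, f n = (F n).1 := ⟨fun n => (F n).1, fun n => rfl⟩
  have hf : ∀ n, St en K.ord.toZFSet U (f n) (f (n + 1)) := by
    intro n
    rw [hfF, hfF, hF]
    exact hG (F n)
  have hub : ∀ n, UBf K.ord U (f n) := by
    intro n
    rw [hfF]
    exact (F n).2
  have hod : OD (f 0) := by
    rw [hfF, hF0]
    exact idf_od _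
  obtain ⟨X, hXd⟩ : ∃ X : ℕ → ZFSet.{u}, X = fun n => (K.ord.toZFSet).sep
      (fun b => ∀ c d : Ordinal.{u}, ZFSet.pair b c.toZFSet ∈ f (n + 1) →
        ZFSet.pair b d.toZFSet ∈ f n → c < d) := ⟨_, rfl⟩
  have hX : ∀ n, X n ∈ U := by
    intro n
    obtain ⟨c, hc, -⟩ := hf n
    rw [hXd]
    exact (of_nx hen hc).2
  have hNV : NV γ (sq X) := by
    refine HD.HW.nv_of hγ (P := fun z p _ _ =>
      PF en (ω : Ordinal.{u}).toZFSet (f 0) K.ord.toZFSet p z) ?_ hU.inN hU.inN hU.inN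
      (fun z => ?_) fun z hz => ?_
    · exact DZ.od (R := fun a v => PF en a (f 0) K.ord.toZFSet (v 1) (v 0)) (OD.ordinal ω)
        (DZ.od (R := fun b v => PF en (v 0) b K.ord.toZFSet (v 2) (v 1)) hod
          (DZ.od (R := fun c v => PF en (v 1) (v 0) c (v 3) (v 2)) (OD.ordinal K.ord)
            (dz_PF hen 2 1 0 4 3)))
    · rw [hXd]
      exact (pf_iff hf).symm
    · obtain ⟨n, rfl⟩ := mem_sq.1 hz
      exact HD.HW.nv_pair hγ (HD.HW.nv_ord hγ _) (HD.HW.nv_tra _ hU.inN _ (hX n))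
  have hfun : ZFSet.IsFunc (ω : Ordinal.{u}).toZFSet U (sq X) := by
    refine ⟨fun p hp => ?_, fun z hz => ?_⟩
    · obtain ⟨n, rfl⟩ := mem_sq.1 hp
      exact ZFSet.pair_mem_prod.2 ⟨mem_W.2 ⟨n, rfl⟩, hX n⟩
    · obtain ⟨n, rfl⟩ := mem_W.1 hz
      exact ⟨X n, pair_mem_sq.2 rfl, fun y hy => pair_mem_sq.1 hy⟩
  have hωK : ω < K.ord := by
    rw [← Cardinal.ord_aleph0]
    exact Cardinal.ord_lt_ord.2 hK
  have hS := hU.compl ω hωK _ hNV hfun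
  obtain ⟨b, -, hbK, hb⟩ := (h1 γ hγ K hK U hU).2 _ hS 0 (Ordinal.omega0_pos.trans hωK)
  rw [ZFSet.mem_sep] at hb
  have hb' : ∀ n, b.toZFSet ∈ X n := fun n => hb.2 (nn n) (X n) (pair_mem_sq.2 rfl)
  have hval : ∀ n, ∃ c : Ordinal.{u}, ZFSet.pair b.toZFSet c.toZFSet ∈ f n := by
    intro n
    obtain ⟨y, hy, -⟩ := (hub n).2.1.2 b.toZFSet (toZFSet_mem_toZFSet_iff.2 hbK)
    have hy2 := (ZFSet.pair_mem_prod.1 ((hub n).2.1.1 hy)).2
    obtain ⟨c, -, rfl⟩ := mem_toZFSet_iff.1 hy2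
    exact ⟨c, hy⟩
  choose c hc using hval
  have hdec : ∀ n, c (n + 1) < c n := by
    intro n
    have h2 := hb' n
    rw [hXd] at h2
    exact (ZFSet.mem_sep.1 h2).2 _ _ (hc (n + 1)) (hc n)
  exact not_strictAnti_of_wellFoundedLT c (strictAnti_nat_of_succ_lt hdec)

end Pool.Agent.H67.HV
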